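import Pool.Agent.H.MP_d4b31a_ag.B

set_option autoImplicit false
open AlgebraicGeometry CategoryTheory TensorProduct Pool.Agent.H.MP_d4b31a_ag

namespace Pool.Agent.Results.MP_d4b31a_ag.SmallComponent

universe u

theorem result (k : Type u) [Field k] :
    ∃ (R : Type u) (_ : CommRing R) (_ : IsDomain R) (_ : Algebra k R), Algebra.FiniteType k R ∧
      ringKrullDim R = 1 ∧ ∃ d : ℕ, 1 ≤ d ∧ ∀ (H : Scheme.{u}) (s : H ⟶ Spec (.of k)), LocallyOfFiniteType s →
        IsHilb k R d H s → ∃ Z ∈ irreducibleComponents H, topologicalKrullDim Z < d := by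
  refine ⟨RR k, inferInstance, inferInstance, inferInstance, RR_ft, RR_dim, 8, by simp, fun H s _ ⟨U, h1, h2⟩ => ?_⟩
  obtain ⟨x, h3, h4⟩ := (h1 k).surjOn I0_mem
  obtain ⟨B, _, f, _, _, h5, h6⟩ := chart s (x (IsLocalRing.closedPoint k))
  obtain ⟨ψ, h7⟩ := Spec.map_surjective (IsOpenImmersion.lift f x (by
    rintro _ ⟨a, rfl⟩; rwa [Subsingleton.elim a (IsLocalRing.closedPoint k)]))
  have h8 : Spec.map ψ ≫ f = x := h7 ▸ IsOpenImmersion.lift_fac _ _ _
  let φ0 : B →ₐ[k] k := ⟨ψ.hom, fun a => by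
    have : Spec.map ψ ≫ f ≫ s = _ := (Category.assoc _ _ _).symm.trans (h8 ▸ h3)
    rw [h6, ← Spec.map_comp, Spec.map_inj] at this
    exact congrArg (fun g => g.hom a) this⟩
  have h9 : ∀ (T : Type u) [CommRing T] [Algebra k T] (φ : B →ₐ[k] T), (Spec.map (CommRingCat.ofHom φ.toRingHom) ≫ f) ≫ s =
      Spec.map (CommRingCat.ofHom (algebraMap k T)) := fun T _ _ φ => by
    rw [Category.assoc, h6]
    exact (Spec.map_comp _ _).symm.trans (congrArg (fun g => Spec.map (CommRingCat.ofHom g)) φ.comp_algebraMap)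
  haveI := Algebra.FiniteType.isNoetherianRing k B
  have h10 := tang (U B f) φ0 ((h2 B k φ0 f h6).symm.trans ((congrArg _ h8).trans h4))
    (fun φ => h2 B _ φ f h6 ▸ (h1 _).mapsTo (h9 _ φ)) fun φ φ' e => by
      have := (h1 _).injOn (h9 _ φ) (h9 _ φ') ((h2 B _ φ f h6).trans (e.trans (h2 B _ φ' f h6).symm))
      rw [cancel_mono, Spec.map_inj] at this
      exact AlgHom.ext fun a => congrArg (fun g => g.hom a) this
  haveI hm : (RingHom.ker φ0).IsMaximal := RingHom.ker_isMaximal_of_surjective φ0 fun a => ⟨_, φ0.commutes a⟩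
  let p : Spec B := ⟨RingHom.ker φ0, hm.isPrime⟩
  haveI := LocallyOfFiniteType.jacobsonSpace s
  have h11 : IsClosed {f p} := by
    have := f.isOpenEmbedding.preimage_closedPoints
    exact this.ge ((PrimeSpectrum.isClosed_singleton_iff_isMaximal p).mpr hm)
  haveI := Subtype.irreducibleSpace (isIrreducible_irreducibleComponent (x := f p))
  refine ⟨_, irreducibleComponent_mem_irreducibleComponents (f p), (dimZ s
    isClosed_irreducibleComponent.isClosedEmbedding_subtypeVal (x := ⟨_, mem_irreducibleComponent⟩) h11).trans_lt ?_⟩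
  rw [coheight_eq_of_isOpenImmersion, ← idealHeight_eq_coheight]
  exact WithBot.coe_lt_coe.mpr (h10.trans_lt (show (7 : ℕ∞) < (8 : ℕ) by norm_num))

end Pool.Agent.Results.MP_d4b31a_ag.SmallComponent
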